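import Mathlib
import Pool.Agent.H19.IdealAnti

set_option autoImplicit false
open Cardinal

universe u

namespace Pool.Agent.Results.MP_88803c_co.Bound

theorem result (μ : Cardinal.{u}) (P : Type u) [PartialOrder P]
    (hP : ∀ A : Set P, IsAntichain (· ≤ ·) A → #A ≠ μ) :
    ∀ B : Set (Order.Ideal P), IsAntichain (· ≤ ·) B →
      #B ≠ Order.succ ((2 : Cardinal.{u}) ^ ((2 : Cardinal.{u}) ^ (max μ ℵ₀))) := by
  intro B hB h
  have := Pool.Agent.H19.IA.main μ P hP B hB
  rw [h] at this
  exact absurd (Order.lt_succ _) (not_lt.2 this)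

end Pool.Agent.Results.MP_88803c_co.Bound
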